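import Mathlib
import Pool.Agent.Helper49.SLnm.Defs
import Pool.Agent.Helper49.SLnm.ZDef
import Pool.Agent.Helper49.SLnm.Main
import Pool.Agent.Helper49.Plu.Defs
import Pool.Agent.Helper49.Plu.Sft

open MvPolynomial Pool.Agent.Helper49.SLnm Pool.Agent.Helper49.Plu

/-- The center of `U(g)`, `g = sl(n,C) ⋉ C^(m,n)`, for all positive `n`, `m`: write `n = q m + r`
with `1 ≤ r ≤ m`. Then the elements `z_J`, `J` an increasing `r`-tuple in `{0, …, m-1}`, are
central, they generate the center as a `C`-algebra, and the ideal of the polynomial relations among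
them is generated by the Pluecker relations. -/
theorem Pool.Agent.Results.MP_470bac_al.CenterPlucker.result (n m : ℕ) (hn : 0 < n) (hm : 0 < m) :
    ∃ q r : ℕ, n = q * m + r ∧ 0 < r ∧ r ≤ m ∧
      ∃ Z : (Fin r ↪o Fin m) → ZU (q * m + r) m,
        (∀ J : Fin r ↪o Fin m, (Z J : U (q * m + r) m) = z (q := q) (J : Fin r → Fin m)) ∧
        IsPresentation Z (rels r m) := by
  refine ⟨(n - 1) / m, (n - 1) % m + 1, ?_, Nat.succ_pos _, Nat.succ_le_of_lt (Nat.mod_lt _ hm),
    ?_⟩
  · have := Nat.div_add_mod (n - 1) m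
    rw [mul_comm] at this
    omega
  · have hr : 0 < (n - 1) % m + 1 := Nat.succ_pos _
    have hrm : (n - 1) % m + 1 ≤ m := Nat.succ_le_of_lt (Nat.mod_lt _ hm)
    refine ⟨zc (q := (n - 1) / m) hr hrm, fun J => rfl, surj hr hrm, ?_⟩
    exact (ker_eq (q := (n - 1) / m) hr hrm).trans (ker_Phi hr)
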